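import Pool.Agent.Work.MP_6004b5_an.Area

open Complex Metric Set MeasureTheory ComplexConjugate

namespace Pool.Agent.Work.MP_6004b5_an.Parked.Counterexample

open Pool.Agent.Work.MP_6004b5_an in
/-- There are a compact set E in the unit disk and a sense-preserving harmonic bijection
f = h + conj g of the disk onto itself with m(f(E)) strictly larger than the supremum of
m(φ(E)) over all conformal automorphisms φ of the disk. -/
theorem result :
    ∃ E : Set ℂ, IsCompact E ∧ E ⊆ ball (0 : ℂ) 1 ∧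
      ∃ f h g : ℂ → ℂ,
        InnerProductSpace.HarmonicOnNhd f (ball (0 : ℂ) 1) ∧
        AnalyticOnNhd ℂ h (ball (0 : ℂ) 1) ∧ AnalyticOnNhd ℂ g (ball (0 : ℂ) 1) ∧
        (∀ z, f z = h z + conj (g z)) ∧
        (∀ z ∈ ball (0 : ℂ) 1, 0 < ‖deriv h z‖ ^ 2 - ‖deriv g z‖ ^ 2) ∧
        BijOn f (ball (0 : ℂ) 1) (ball (0 : ℂ) 1) ∧
        (⨆ (θ : ℝ) (a : ℂ) (_ : ‖a‖ < 1),
            volume ((fun z : ℂ => exp (θ * I) * ((z - a) / (1 - conj a * z))) '' E))
          < volume (f '' E) := by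
  have hh_an : AnalyticOnNhd ℂ hh (ball (0 : ℂ) 1) :=
    DifferentiableOn.analyticOnNhd
      (fun z _ => (hasDerivAt_hh z).differentiableAt.differentiableWithinAt) isOpen_ball
  have gg_an : AnalyticOnNhd ℂ gg (ball (0 : ℂ) 1) :=
    DifferentiableOn.analyticOnNhd
      (fun z hz => (hasDerivAt_gg (mem_ball_zero_iff.1 hz).le).differentiableAt.differentiableWithinAt)
      isOpen_ball
  refine ⟨EE, EE_compact, EE_sub, ff, hh, gg, ?_, hh_an, gg_an, fun _ => rfl, ?_, ff_bijOn, ?_⟩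
  · intro z hz
    exact (hh_an z hz).harmonicAt.add (gg_an z hz).harmonicAt_conj
  · intro z hz
    have hz' := (mem_ball_zero_iff.1 hz).le
    rw [(hasDerivAt_hh z).deriv, (hasDerivAt_gg hz').deriv]
    have a1 := norm_dhh z
    have a2 := norm_dgg hz'
    have a3 : -1 ≤ (z ^ 2).re := by
      have b1 := Complex.abs_re_le_norm (z ^ 2)
      have b2 : ‖z ^ 2‖ ≤ 1 := by rw [norm_pow]; exact pow_le_one₀ (norm_nonneg _) hz'
      linarith [neg_abs_le (z ^ 2).re]
    have a4 := norm_nonneg (-(99 / 100) * ((10 - z ^ 2) / (10 + z ^ 2) ^ 2) : ℂ)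
    have a5 : 69 / 100 ≤ ‖(99 / 100 + 3 * z ^ 2 / 10 : ℂ)‖ := by linarith
    nlinarith
  · refine lt_of_le_of_lt ?_ area_ff
    exact iSup_le fun θ => iSup_le fun a => iSup_le fun ha => area_mob θ a ha

end Pool.Agent.Work.MP_6004b5_an.Parked.Counterexample
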